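import Pool.Agent.PPD.Sxi

/-!
# PPD/Sxc: the zeros of the dual sextic modulo a prime
-/

set_option autoImplicit false

namespace Pool.Agent.PPD

open Pool.Agent.SMQ

section F

variable {F : Type*} [Field F] [Fintype F] [DecidableEq F]

/-- a nonzero polynomial of degree at most `n` has at most `n` zeros -/
private theorem rts (P : Polynomial F) (n : ℕ) (hP : P ≠ 0) (hd : P.natDegree ≤ n) :
    (Finset.univ.filter fun x : F => P.eval x = 0).card ≤ n := by
  have h1 : (Finset.univ.filter fun x : F => P.eval x = 0) ⊆ P.roots.toFinset := by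
    intro x hx
    rw [Finset.mem_filter] at hx
    rw [Multiset.mem_toFinset, Polynomial.mem_roots hP]
    exact hx.2
  calc _ ≤ P.roots.toFinset.card := Finset.card_le_card h1
    _ ≤ Multiset.card P.roots := Multiset.toFinset_card_le _
    _ ≤ P.natDegree := P.card_roots'
    _ ≤ n := hd

open Polynomial in
omit [Fintype F] [DecidableEq F] in
private theorem cf6 (a b c d e f : F) :
    (C a * X ^ 6 + C b * X ^ 4 + C c * X ^ 3 + C d * X ^ 2 + C e * X + C f : F[X]).coeff 6 = a := by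
  simp [coeff_X, coeff_C, coeff_X_pow]

open Polynomial in
omit [Fintype F] [DecidableEq F] in
private theorem cf2 (a b : F) : (C a * X ^ 2 + C b : F[X]).coeff 2 = a := by
  simp [coeff_C, coeff_X_pow]

omit [Field F] in
/-- counting by fibres over the first two coordinates -/
private theorem fibc (Z : Finset (F × F × F)) (n : ℕ)
    (h : ∀ a b : F, (Finset.univ.filter fun x : F => (a, b, x) ∈ Z).card ≤ n) :
    Z.card ≤ n * Fintype.card F ^ 2 := by
  classical
  have h1 := Finset.card_le_mul_card_image (s := Z) (f := fun w : F × F × F => (w.1, w.2.1)) n ?_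
  · refine h1.trans ?_
    refine Nat.mul_le_mul_left n ?_
    refine (Finset.card_le_univ _).trans ?_
    rw [Fintype.card_prod, pow_two]
  · rintro ⟨a, b⟩ _
    refine le_trans ?_ (h a b)
    refine Finset.card_le_card_of_injOn (fun w => w.2.2) ?_ ?_
    · rintro ⟨x, y, z⟩ hw
      rw [Finset.mem_coe, Finset.mem_filter] at hw
      rw [Finset.mem_coe, Finset.mem_filter]
      obtain ⟨h1, h2⟩ := hw
      simp only [Prod.mk.injEq] at h2
      obtain ⟨rfl, rfl⟩ := h2
      exact ⟨Finset.mem_univ _, h1⟩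
    · rintro ⟨x, y, z⟩ hw ⟨x', y', z'⟩ hw' he
      rw [Finset.mem_coe, Finset.mem_filter] at hw hw'
      simp only [Prod.mk.injEq] at hw hw' he ⊢
      exact ⟨hw.2.1.trans hw'.2.1.symm, hw.2.2.trans hw'.2.2.symm, he⟩

/-- the zeros of the sextic -/
def Zs (p y1 y2 y3 : F) : Finset (F × F × F) :=
  Finset.univ.filter fun w => Sx p y1 y2 y3 w.1 w.2.1 w.2.2 = 0

private theorem zs_rot (p y1 y2 y3 : F) : (Zs p y1 y2 y3).card = (Zs p y2 y3 y1).card := by
  refine Finset.card_bij (fun w _ => (w.2.1, w.2.2, w.1)) ?_ ?_ ?_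
  · intro w hw
    rw [Zs, Finset.mem_filter] at hw ⊢
    refine ⟨Finset.mem_univ _, ?_⟩
    rw [← hw.2]
    exact sx_rot p y1 y2 y3 w.1 w.2.1 w.2.2
  · rintro ⟨a, b, c⟩ _ ⟨a', b', c'⟩ _ h
    simp only [Prod.mk.injEq] at h ⊢
    exact ⟨h.2.2, h.1, h.2.1⟩
  · rintro ⟨a, b, c⟩ hw
    refine ⟨(c, a, b), ?_, rfl⟩
    rw [Zs, Finset.mem_filter] at hw ⊢
    refine ⟨Finset.mem_univ _, ?_⟩
    rw [← hw.2]
    exact (sx_rot p y1 y2 y3 c a b).symm

private theorem zs1 (p y1 y2 y3 : F) (h : y1 * y2 ≠ 0) :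
    (Zs p y1 y2 y3).card ≤ 6 * Fintype.card F ^ 2 := by
  refine fibc _ 6 ?_
  intro a b
  set P : Polynomial F := Polynomial.C ((y1 * y2) ^ 2) * Polynomial.X ^ 6 +
    Polynomial.C (-(6 * p ^ 2 * (a * b) * (y1 * y2))) * Polynomial.X ^ 4 +
    Polynomial.C (-((2 * (y1 * y2 * y3) - 4 * p ^ 3) * (y1 * b ^ 3 + y2 * a ^ 3))) *
      Polynomial.X ^ 3 +
    Polynomial.C ((12 * p * (y1 * y2 * y3) - 3 * p ^ 4) * (a * b) ^ 2) * Polynomial.X ^ 2 +
    Polynomial.C (-(6 * p ^ 2 * (a * b) * (y2 * y3 * a ^ 3 + y3 * y1 * b ^ 3))) * Polynomial.X +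
    Polynomial.C ((y2 * y3) ^ 2 * a ^ 6 + (y3 * y1) ^ 2 * b ^ 6 -
      (2 * (y1 * y2 * y3) - 4 * p ^ 3) * (y3 * (a ^ 3 * b ^ 3))) with hPdef
  have hc : P.coeff 6 = (y1 * y2) ^ 2 := by
    rw [hPdef]
    exact cf6 _ _ _ _ _ _
  have hP : P ≠ 0 := by
    intro h0
    rw [h0, Polynomial.coeff_zero] at hc
    exact pow_ne_zero 2 h hc.symm
  have hd : P.natDegree ≤ 6 := by
    rw [hPdef]
    compute_degree
  refine le_trans (Finset.card_le_card ?_) (rts P 6 hP hd)
  intro x hx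
  rw [Finset.mem_filter] at hx ⊢
  refine ⟨Finset.mem_univ _, ?_⟩
  have h2 := hx.2
  rw [Zs, Finset.mem_filter] at h2
  rw [← h2.2, hPdef]
  simp only [Polynomial.eval_add, Polynomial.eval_mul, Polynomial.eval_C, Polynomial.eval_pow,
    Polynomial.eval_X, Sx]
  ring

private theorem zs0 (p y3 : F) (hp : p ≠ 0) (h3 : (3 : F) ≠ 0) :
    (Zs p 0 0 y3).card ≤ 6 * Fintype.card F ^ 2 := by
  classical
  -- split according to `a b = 0`
  set q := Fintype.card F with hq
  set A := (Zs p 0 0 y3).filter fun w => w.1 * w.2.1 ≠ 0 with hA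
  set B := (Zs p 0 0 y3).filter fun w => ¬ (w.1 * w.2.1 ≠ 0) with hB
  have hAB : A.card + B.card = (Zs p 0 0 y3).card :=
    Finset.card_filter_add_card_filter_not (s := Zs p 0 0 y3) _
  have hA2 : A.card ≤ 2 * q ^ 2 := by
    refine fibc _ 2 ?_
    intro a b
    by_cases hab : a * b = 0
    · have : (Finset.univ.filter fun x : F => (a, b, x) ∈ A) = ∅ := by
        refine Finset.filter_false_of_mem ?_
        intro x _ hx
        rw [hA, Finset.mem_filter] at hx
        exact hx.2 hab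
      rw [this]; simp
    · set P : Polynomial F := Polynomial.C (-(3 * p)) * Polynomial.X ^ 2 +
        Polynomial.C (4 * y3 * (a * b)) with hPdef
      have hc : P.coeff 2 = -(3 * p) := by
        rw [hPdef]; exact cf2 _ _
      have hP : P ≠ 0 := by
        intro h0
        rw [h0, Polynomial.coeff_zero] at hc
        exact (neg_ne_zero.2 (mul_ne_zero h3 hp)) hc.symm
      have hd : P.natDegree ≤ 2 := by
        rw [hPdef]; compute_degree
      refine le_trans (Finset.card_le_card ?_) (rts P 2 hP hd)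
      intro x hx
      rw [Finset.mem_filter] at hx ⊢
      refine ⟨Finset.mem_univ _, ?_⟩
      have h2 := hx.2
      rw [hA, Finset.mem_filter, Zs, Finset.mem_filter] at h2
      have h4 := h2.1.2
      have h5 : p ^ 3 * (a * b) ^ 2 * (4 * y3 * (a * b) - 3 * p * x ^ 2) = 0 := by
        rw [← h4]; simp only [Sx]; ring
      have h6 : p ^ 3 * (a * b) ^ 2 ≠ 0 := mul_ne_zero (pow_ne_zero 3 hp) (pow_ne_zero 2 hab)
      have h7 := (mul_eq_zero.1 h5).resolve_left h6
      rw [hPdef]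
      simp only [Polynomial.eval_add, Polynomial.eval_mul, Polynomial.eval_C, Polynomial.eval_pow,
        Polynomial.eval_X]
      linear_combination h7
  have hB2 : B.card ≤ 2 * q ^ 2 := by
    have h1 : B ⊆ (Finset.univ.filter fun w : F × F × F => w.1 = 0) ∪
        (Finset.univ.filter fun w : F × F × F => w.2.1 = 0) := by
      intro w hw
      rw [hB, Finset.mem_filter] at hw
      have h2 : w.1 * w.2.1 = 0 := by
        by_contra h; exact hw.2 h
      rw [Finset.mem_union, Finset.mem_filter, Finset.mem_filter]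
      rcases mul_eq_zero.1 h2 with h | h
      · exact Or.inl ⟨Finset.mem_univ _, h⟩
      · exact Or.inr ⟨Finset.mem_univ _, h⟩
    have h2 : (Finset.univ.filter fun w : F × F × F => w.1 = 0).card ≤ q ^ 2 := by
      have : (Finset.univ.filter fun w : F × F × F => w.1 = 0).card ≤
          (Finset.univ : Finset (F × F)).card := by
        refine Finset.card_le_card_of_injOn (fun w => w.2) (fun _ _ => by simp) ?_
        rintro ⟨x, y⟩ hw ⟨x', y'⟩ hw' he
        rw [Finset.mem_coe, Finset.mem_filter] at hw hw'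
        simp only [Prod.mk.injEq]
        exact ⟨hw.2.trans hw'.2.symm, he⟩
      rw [Finset.card_univ, Fintype.card_prod, ← pow_two] at this
      exact this
    have h3 : (Finset.univ.filter fun w : F × F × F => w.2.1 = 0).card ≤ q ^ 2 := by
      have : (Finset.univ.filter fun w : F × F × F => w.2.1 = 0).card ≤
          (Finset.univ : Finset (F × F)).card := by
        refine Finset.card_le_card_of_injOn (fun w => (w.1, w.2.2)) (fun _ _ => by simp) ?_
        rintro ⟨x, y, z⟩ hw ⟨x', y', z'⟩ hw' he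
        rw [Finset.mem_coe, Finset.mem_filter] at hw hw'
        simp only [Prod.mk.injEq] at he ⊢
        exact ⟨he.1, hw.2.trans hw'.2.symm, he.2⟩
      rw [Finset.card_univ, Fintype.card_prod, ← pow_two] at this
      exact this
    calc B.card ≤ _ := Finset.card_le_card h1
      _ ≤ _ := Finset.card_union_le _ _
      _ ≤ q ^ 2 + q ^ 2 := Nat.add_le_add h2 h3
      _ = 2 * q ^ 2 := by ring
  calc (Zs p 0 0 y3).card = A.card + B.card := hAB.symm
    _ ≤ 2 * q ^ 2 + 2 * q ^ 2 := Nat.add_le_add hA2 hB2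
    _ ≤ 6 * q ^ 2 := by
      have : 0 ≤ q ^ 2 := Nat.zero_le _
      omega

theorem zs_card (p y1 y2 y3 : F) (hD : y1 * y2 * y3 - p ^ 3 ≠ 0) (h3 : (3 : F) ≠ 0) :
    (Zs p y1 y2 y3).card ≤ 6 * Fintype.card F ^ 2 := by
  by_cases hp : p = 0
  · refine zs1 p y1 y2 y3 ?_
    intro h
    apply hD
    rw [h, hp]; ring
  by_cases h12 : y1 * y2 = 0
  · by_cases h23 : y2 * y3 = 0
    · by_cases h31 : y3 * y1 = 0
      · rcases mul_eq_zero.1 h12 with h | h
        · subst h
          rcases mul_eq_zero.1 h23 with h | h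
          · subst h; exact zs0 p y3 hp h3
          · -- y1 = 0, y3 = 0: rotate twice
            subst h
            rw [zs_rot, zs_rot]
            exact zs0 p y2 hp h3
        · subst h
          rcases mul_eq_zero.1 h31 with h | h
          · subst h
            rw [zs_rot]
            exact zs0 p y1 hp h3
          · subst h; exact zs0 p y3 hp h3
      · rw [zs_rot, zs_rot]; exact zs1 p y3 y1 y2 h31
    · rw [zs_rot]; exact zs1 p y2 y3 y1 h23
  · exact zs1 p y1 y2 y3 h12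

/-- the normal form of a vector -/
def nz (w : F × F × F) : F × F × F :=
  if w.1 ≠ 0 then (1, w.2.1 / w.1, w.2.2 / w.1) else
    if w.2.1 ≠ 0 then (0, 1, w.2.2 / w.2.1) else (0, 0, 1)

/-- the first nonzero coordinate -/
def fz (w : F × F × F) : F :=
  if w.1 ≠ 0 then w.1 else if w.2.1 ≠ 0 then w.2.1 else w.2.2

private theorem fz_ne (w : F × F × F) (hw : w ≠ 0) : fz w ≠ 0 := by
  unfold fz
  split_ifs with h1 h2
  · exact h1
  · exact h2
  · intro h3
    apply hw
    push Not at h1 h2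
    obtain ⟨a, b, c⟩ := w
    simp only at h1 h2 h3
    simp [h1, h2, h3]

private theorem nz_eq (w : F × F × F) (hw : w ≠ 0) :
    w.1 = fz w * (nz w).1 ∧ w.2.1 = fz w * (nz w).2.1 ∧ w.2.2 = fz w * (nz w).2.2 := by
  unfold fz nz
  split_ifs with h1 h2
  · refine ⟨by simp, ?_, ?_⟩ <;> field_simp
  · push Not at h1
    refine ⟨by simpa using h1, by simp, ?_⟩
    field_simp
  · push Not at h1 h2
    refine ⟨by simpa using h1, by simpa using h2, by simp⟩

private theorem nz_smul (w : F × F × F) (c : F) (hc : c ≠ 0) :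
    nz (c * w.1, c * w.2.1, c * w.2.2) = nz w := by
  unfold nz
  by_cases h1 : w.1 = 0
  · by_cases h2 : w.2.1 = 0
    · simp [h1, h2]
    · simp only [h1, mul_zero, ne_eq, not_true_eq_false, if_false, mul_eq_zero, hc, h2, or_self,
        not_false_eq_true, if_true, Prod.mk.injEq, true_and]
      exact mul_div_mul_left _ _ hc
  · simp only [ne_eq, mul_eq_zero, hc, h1, or_self, not_false_eq_true, if_true, Prod.mk.injEq,
      true_and]
    exact ⟨mul_div_mul_left _ _ hc, mul_div_mul_left _ _ hc⟩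

private theorem fz_smul (w : F × F × F) (c : F) (hc : c ≠ 0) :
    fz (c * w.1, c * w.2.1, c * w.2.2) = c * fz w := by
  unfold fz
  by_cases h1 : w.1 = 0
  · by_cases h2 : w.2.1 = 0
    · simp [h1, h2]
    · simp [h1, h2, hc]
  · simp [h1, hc]

private theorem fz_nz (w : F × F × F) : fz (nz w) = 1 := by
  unfold nz
  split_ifs <;> simp [fz]

/-- the normal forms of the nonzero zeros -/
def Nz (p y1 y2 y3 : F) : Finset (F × F × F) :=
  ((Zs p y1 y2 y3).filter fun w => w ≠ 0).image nz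

theorem nz_card (p y1 y2 y3 : F) (hp : y1 * y2 * y3 - p ^ 3 ≠ 0) (h3 : (3 : F) ≠ 0) :
    (Nz p y1 y2 y3).card ≤ 12 * Fintype.card F := by
  classical
  set q := Fintype.card F with hq
  have hq2 : 2 ≤ q := Fintype.one_lt_card
  have h1 : (Finset.univ.filter fun c : F => c ≠ 0).card * (Nz p y1 y2 y3).card ≤
      (Zs p y1 y2 y3).card := by
    rw [← Finset.card_product]
    refine Finset.card_le_card_of_injOn
      (fun x => (x.1 * x.2.1, x.1 * x.2.2.1, x.1 * x.2.2.2)) ?_ ?_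
    · rintro ⟨c, n⟩ hx
      rw [Finset.mem_coe, Finset.mem_product, Finset.mem_filter, Nz, Finset.mem_image] at hx
      obtain ⟨⟨_, hc⟩, w, hw, rfl⟩ := hx
      rw [Finset.mem_filter, Zs, Finset.mem_filter] at hw
      obtain ⟨⟨_, hs⟩, hw0⟩ := hw
      rw [Finset.mem_coe, Zs, Finset.mem_filter]
      refine ⟨Finset.mem_univ _, ?_⟩
      simp only at hc ⊢
      have he := nz_eq w hw0
      have hs2 : fz w ^ 6 * Sx p y1 y2 y3 (nz w).1 (nz w).2.1 (nz w).2.2 = 0 := by
        rw [← sx_smul, ← he.1, ← he.2.1, ← he.2.2]; exact hs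
      have hs3 := (mul_eq_zero.1 hs2).resolve_left (pow_ne_zero 6 (fz_ne w hw0))
      rw [sx_smul, hs3, mul_zero]
    · rintro ⟨c, n⟩ hx ⟨c', n'⟩ hx' he
      rw [Finset.mem_coe, Finset.mem_product, Finset.mem_filter, Nz, Finset.mem_image] at hx hx'
      obtain ⟨⟨_, hc⟩, w, hw, rfl⟩ := hx
      obtain ⟨⟨_, hc'⟩, w', hw', rfl⟩ := hx'
      simp only at hc hc' he
      have e1 := congrArg fz he
      rw [fz_smul _ _ hc, fz_smul _ _ hc', fz_nz, fz_nz, mul_one, mul_one] at e1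
      subst e1
      simp only [Prod.mk.injEq] at he
      have e2 : nz w = nz w' := by
        refine Prod.ext (mul_left_cancel₀ hc he.1) (Prod.ext (mul_left_cancel₀ hc he.2.1)
          (mul_left_cancel₀ hc he.2.2))
      rw [e2]
  have h2 : (Finset.univ.filter fun c : F => c ≠ 0).card = q - 1 := by
    have := Finset.card_filter_add_card_filter_not (s := (Finset.univ : Finset F)) (fun c => c = 0)
    have h0 : (Finset.univ.filter fun c : F => c = 0).card = 1 := by
      rw [Finset.filter_eq' Finset.univ (0 : F)]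
      simp
    rw [h0, Finset.card_univ] at this
    have h5 : (Finset.univ.filter fun c : F => ¬ (c = 0)).card = q - 1 := by omega
    exact h5
  rw [h2] at h1
  have h4 := h1.trans (zs_card p y1 y2 y3 hp h3)
  have h5 : (q - 1) * (Nz p y1 y2 y3).card ≤ (q - 1) * (12 * q) := by
    refine h4.trans ?_
    obtain ⟨k, hk⟩ : ∃ k, q = k + 1 := ⟨q - 1, by omega⟩
    rw [hk]
    have hk1 : 1 ≤ k := by omega
    simp only [Nat.add_sub_cancel]
    nlinarith
  exact Nat.le_of_mul_le_mul_left h5 (by omega)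

end F

theorem sx_cl (l : ℕ) (hl : l.Prime) (h5 : 5 ≤ l) (p : ℤ) (y : V3) (hp : ¬ (l : ℤ) ∣ De p y) :
    ∃ c : V3 → Fin (12 * l), ∀ g g' : V3,
      ¬ ((l : ℤ) ∣ g.1 ∧ (l : ℤ) ∣ g.2.1 ∧ (l : ℤ) ∣ g.2.2) →
      ¬ ((l : ℤ) ∣ g'.1 ∧ (l : ℤ) ∣ g'.2.1 ∧ (l : ℤ) ∣ g'.2.2) →
      (l : ℤ) ∣ Sx p y.1 y.2.1 y.2.2 g.1 g.2.1 g.2.2 →
      (l : ℤ) ∣ Sx p y.1 y.2.1 y.2.2 g'.1 g'.2.1 g'.2.2 → c g = c g' →
      (l : ℤ) ∣ (cr g g').1 ∧ (l : ℤ) ∣ (cr g g').2.1 ∧ (l : ℤ) ∣ (cr g g').2.2 := by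
  classical
  haveI : Fact l.Prime := ⟨hl⟩
  have hp' : ((y.1 : ℤ) : ZMod l) * ((y.2.1 : ℤ) : ZMod l) * ((y.2.2 : ℤ) : ZMod l) -
      ((p : ℤ) : ZMod l) ^ 3 ≠ 0 := by
    intro h
    apply hp
    rw [← ZMod.intCast_zmod_eq_zero_iff_dvd, De]
    push_cast
    exact h
  have h3 : (3 : ZMod l) ≠ 0 := by
    intro h
    have h' : ((3 : ℕ) : ZMod l) = 0 := by exact_mod_cast h
    rw [ZMod.natCast_eq_zero_iff] at h'
    have := Nat.le_of_dvd (by norm_num) h'
    omega
  set N := Nz (F := ZMod l) (p : ZMod l) (y.1 : ZMod l) (y.2.1 : ZMod l) (y.2.2 : ZMod l) with hN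
  have hcard : N.card ≤ 12 * l := by
    have := nz_card (F := ZMod l) (p : ZMod l) (y.1 : ZMod l) (y.2.1 : ZMod l) (y.2.2 : ZMod l) hp' h3
    rwa [ZMod.card] at this
  let rd : V3 → ZMod l × ZMod l × ZMod l := fun g => ((g.1 : ZMod l), (g.2.1 : ZMod l), (g.2.2 : ZMod l))
  have h0 : 0 < 12 * l := by omega
  refine ⟨fun g => if h : nz (rd g) ∈ N then Fin.castLE hcard (N.equivFin ⟨nz (rd g), h⟩)
    else ⟨0, h0⟩, ?_⟩
  have key : ∀ g : V3, ¬ ((l : ℤ) ∣ g.1 ∧ (l : ℤ) ∣ g.2.1 ∧ (l : ℤ) ∣ g.2.2) →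
      (l : ℤ) ∣ Sx p y.1 y.2.1 y.2.2 g.1 g.2.1 g.2.2 → rd g ≠ 0 ∧ nz (rd g) ∈ N := by
    intro g hg hs
    have hr : rd g ≠ 0 := by
      intro h
      apply hg
      have h1 : ((g.1 : ℤ) : ZMod l) = 0 := congrArg (fun w => w.1) h
      have h2 : ((g.2.1 : ℤ) : ZMod l) = 0 := congrArg (fun w => w.2.1) h
      have h3 : ((g.2.2 : ℤ) : ZMod l) = 0 := congrArg (fun w => w.2.2) h
      rw [ZMod.intCast_zmod_eq_zero_iff_dvd] at h1 h2 h3
      exact ⟨h1, h2, h3⟩
    refine ⟨hr, ?_⟩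
    rw [hN, Nz, Finset.mem_image]
    refine ⟨rd g, ?_, rfl⟩
    rw [Finset.mem_filter, Zs, Finset.mem_filter]
    refine ⟨⟨Finset.mem_univ _, ?_⟩, hr⟩
    rw [← ZMod.intCast_zmod_eq_zero_iff_dvd, sx_cast] at hs
    exact hs
  intro g g' hg hg' hs hs' hc
  obtain ⟨hr, hm⟩ := key g hg hs
  obtain ⟨hr', hm'⟩ := key g' hg' hs'
  simp only [hm, hm', dif_pos] at hc
  have e1 : N.equivFin ⟨nz (rd g), hm⟩ = N.equivFin ⟨nz (rd g'), hm'⟩ := by
    apply Fin.ext
    have := congrArg Fin.val hc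
    simpa using this
  have e2 := N.equivFin.injective e1
  have e3 : nz (rd g) = nz (rd g') := congrArg Subtype.val e2
  have q1 := nz_eq (rd g) hr
  have q2 := nz_eq (rd g') hr'
  rw [e3] at q1
  have c1 : ((g.1 : ℤ) : ZMod l) = fz (rd g) * (nz (rd g')).1 := q1.1
  have c2 : ((g.2.1 : ℤ) : ZMod l) = fz (rd g) * (nz (rd g')).2.1 := q1.2.1
  have c3 : ((g.2.2 : ℤ) : ZMod l) = fz (rd g) * (nz (rd g')).2.2 := q1.2.2
  have d1 : ((g'.1 : ℤ) : ZMod l) = fz (rd g') * (nz (rd g')).1 := q2.1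
  have d2 : ((g'.2.1 : ℤ) : ZMod l) = fz (rd g') * (nz (rd g')).2.1 := q2.2.1
  have d3 : ((g'.2.2 : ℤ) : ZMod l) = fz (rd g') * (nz (rd g')).2.2 := q2.2.2
  refine ⟨?_, ?_, ?_⟩
  · rw [← ZMod.intCast_zmod_eq_zero_iff_dvd]
    simp only [cr]
    push_cast
    rw [c2, c3, d2, d3]; ring
  · rw [← ZMod.intCast_zmod_eq_zero_iff_dvd]
    simp only [cr]
    push_cast
    rw [c1, c3, d1, d3]; ring
  · rw [← ZMod.intCast_zmod_eq_zero_iff_dvd]
    simp only [cr]
    push_cast
    rw [c1, c2, d1, d2]; ring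

end Pool.Agent.PPD
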