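import Pool.Agent.SMQ.Defs

/-!
# PPD/Sxi: the dual sextic and the discriminant

`Sx` is the dual sextic of the plane cubic `∑ yᵢ kᵢ ^ 3 - 3 p k₁ k₂ k₃`.  For the integers of a triple
`D Δ ^ 4 = - Sx`.
-/

set_option autoImplicit false

namespace Pool.Agent.PPD

open Pool.Agent.SMQ

/-- the dual sextic -/
def Sx {R : Type*} [CommRing R] (p y1 y2 y3 g1 g2 g3 : R) : R :=
  (y2 * y3) ^ 2 * g1 ^ 6 + (y3 * y1) ^ 2 * g2 ^ 6 + (y1 * y2) ^ 2 * g3 ^ 6 -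
    (2 * (y1 * y2 * y3) - 4 * p ^ 3) *
      (y1 * (g2 ^ 3 * g3 ^ 3) + y2 * (g3 ^ 3 * g1 ^ 3) + y3 * (g1 ^ 3 * g2 ^ 3)) -
    6 * p ^ 2 * (g1 * g2 * g3) * (y2 * y3 * g1 ^ 3 + y3 * y1 * g2 ^ 3 + y1 * y2 * g3 ^ 3) +
    (12 * p * (y1 * y2 * y3) - 3 * p ^ 4) * (g1 * g2 * g3) ^ 2

theorem sx_rot {R : Type*} [CommRing R] (p y1 y2 y3 g1 g2 g3 : R) :
    Sx p y2 y3 y1 g2 g3 g1 = Sx p y1 y2 y3 g1 g2 g3 := by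
  unfold Sx; ring

theorem sx_smul {R : Type*} [CommRing R] (p y1 y2 y3 g1 g2 g3 c : R) :
    Sx p y1 y2 y3 (c * g1) (c * g2) (c * g3) = c ^ 6 * Sx p y1 y2 y3 g1 g2 g3 := by
  unfold Sx; ring

theorem sx_cast {R : Type*} [CommRing R] (p y1 y2 y3 g1 g2 g3 : ℤ) :
    ((Sx p y1 y2 y3 g1 g2 g3 : ℤ) : R) = Sx (p : R) (y1 : R) (y2 : R) (y3 : R) (g1 : R) (g2 : R) (g3 : R) := by
  unfold Sx; push_cast; ring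

/-- `4 R ^ 3 Δ - Q ^ 2 = - y₁ ^ 2 Sx` -/
theorem sx_pol {R : Type*} [CommRing R] (p y1 y2 y3 g1 g2 g3 : R) :
    4 * (y1 * g2 * g3 - p * g1 ^ 2) ^ 3 * (y1 * y2 * y3 - p ^ 3) -
      (3 * p ^ 2 * y1 * (g1 * g2 * g3) - y1 ^ 2 * (y2 * g3 ^ 3 + y3 * g2 ^ 3) +
        (y1 * y2 * y3 - 2 * p ^ 3) * g1 ^ 3) ^ 2 = - (y1 ^ 2 * Sx p y1 y2 y3 g1 g2 g3) := by
  unfold Sx; ring

theorem sx_id (D N1 p x1 y1 y2 y3 g1 g2 g3 : ℤ) (hy : y1 ≠ 0)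
    (hn : 4 * N1 ^ 3 = x1 ^ 2 + D * y1 ^ 2)
    (hm : N1 * (y1 * y2 * y3 - p ^ 3) = y1 * g2 * g3 - p * g1 ^ 2)
    (hx : x1 * (y1 * y2 * y3 - p ^ 3) ^ 2 = 3 * p ^ 2 * y1 * (g1 * g2 * g3) -
      y1 ^ 2 * (y2 * g3 ^ 3 + y3 * g2 ^ 3) + (y1 * y2 * y3 - 2 * p ^ 3) * g1 ^ 3) :
    D * (y1 * y2 * y3 - p ^ 3) ^ 4 = - Sx p y1 y2 y3 g1 g2 g3 := by
  have h := sx_pol p y1 y2 y3 g1 g2 g3
  rw [← hm, ← hx] at h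
  have hy2 : y1 ^ 2 ≠ 0 := pow_ne_zero 2 hy
  apply mul_left_cancel₀ hy2
  linear_combination h - (y1 * y2 * y3 - p ^ 3) ^ 4 * hn

/-- a prime divisor of the content which does not divide `Δ` divides the sextic -/
theorem sx_dvd (D N1 p x1 y1 y2 y3 g1 g2 g3 : ℤ) (hy : y1 ≠ 0)
    (hn : 4 * N1 ^ 3 = x1 ^ 2 + D * y1 ^ 2)
    (hm : N1 * (y1 * y2 * y3 - p ^ 3) = y1 * g2 * g3 - p * g1 ^ 2)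
    (hx : x1 * (y1 * y2 * y3 - p ^ 3) ^ 2 = 3 * p ^ 2 * y1 * (g1 * g2 * g3) -
      y1 ^ 2 * (y2 * g3 ^ 3 + y3 * g2 ^ 3) + (y1 * y2 * y3 - 2 * p ^ 3) * g1 ^ 3)
    (l : ℤ) (hl : l ∣ D) : l ∣ Sx p y1 y2 y3 g1 g2 g3 := by
  have h := sx_id D N1 p x1 y1 y2 y3 g1 g2 g3 hy hn hm hx
  have h2 : l ∣ - Sx p y1 y2 y3 g1 g2 g3 := by
    rw [← h]; exact Dvd.dvd.mul_right hl _
  exact (dvd_neg).1 h2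

end Pool.Agent.PPD
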